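import Pool.Agent.H.MP_33c96f_co.A

namespace Pool.Agent.Results.MP_33c96f_co.Tree

open Matrix Finset

open Classical in
noncomputable def U {n : ℕ} (X : SimpleGraph (Fin n)) (t : ℝ) : Matrix (Fin n) (Fin n) ℂ :=
  NormedSpace.exp (((t : ℂ) * Complex.I) • X.adjMatrix ℂ)

open Classical in
noncomputable def delPoly {n : ℕ} (X : SimpleGraph (Fin n)) (a : Fin n) : Polynomial ℝ :=
  ((X.induce {v | v ≠ a}).adjMatrix ℝ).charpoly

open Pool.Agent.H.MP_33c96f_co.A Pool.Agent.H.MP_d93d44_co.A

theorem sq4 (g : ℤ) (h : IsSquare (g ^ 2 + 4)) : g = 0 := by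
  obtain ⟨m, hm⟩ := h
  have a1 := abs_nonneg g
  have a2 := abs_nonneg m
  have e : |m| * |m| = |g| ^ 2 + 4 := by rw [abs_mul_abs_self, sq_abs, hm]
  have b1 : |g| + 1 ≤ |m| := by nlinarith
  by_contra h0
  have b2 : 1 ≤ |g| := Int.one_le_abs h0
  rcases b1.lt_or_eq with b3 | b3
  · nlinarith
  · rw [← b3] at e
    have : 2 * |g| = 3 := by nlinarith
    omega

open Classical in
theorem walks {n : ℕ} (T : SimpleGraph (Fin n)) (hT : T.IsTree) (a b : Fin n) (hab : a ≠ b)
    (τ : ℝ) (hτ : 0 < τ) (α β : ℂ) (hα : α ≠ 0) (hβ : β ≠ 0)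
    (h : U T τ *ᵥ Pi.single a 1 = α • Pi.single a 1 + β • Pi.single b 1) (k : ℕ) :
    (T.adjMatrix ℝ ^ k) a a = (T.adjMatrix ℝ ^ k) b b := by
  set M := ((τ : ℂ) * Complex.I) • T.adjMatrix ℂ with hM
  have hs : ∀ u v, U T τ u v = U T τ v u := fun u v =>
    (Matrix.IsSymm.smul T.isSymm_adjMatrix _).exp.apply v u
  have hH : Mᴴ = -M := by
    ext u v
    by_cases e : T.Adj v u <;> simp [hM, conjTranspose_apply, T.adj_comm u v, e]
  have hU : (U T τ)ᴴ = NormedSpace.exp (-M) := by rw [← hH, exp_conjTranspose]; rfl
  have hu : (U T τ)ᴴ * U T τ = 1 := by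
    rw [hU, U, ← Matrix.exp_add_of_commute _ _ (Commute.refl M).neg_left, neg_add_cancel,
      NormedSpace.exp_zero]
  have ra : ∀ f : Fin n → ℂ, ∑ w, U T τ a w * f w = α * f a + β * f b := fun f => by
    have : ∀ w, U T τ a w = (if w = a then α else 0) + if w = b then β else 0 := fun w => by
      rw [hs]
      simpa [Pi.single_apply] using congrFun h w
    simp [this, add_mul, sum_add_distrib]
  have Ua : ∀ v, U T τ a v = α * (if v = a then 1 else 0) + β * if v = b then 1 else 0 :=
    fun v => by simpa [eq_comm] using ra fun w => if v = w then 1 else 0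
  have Uaa : U T τ a a = α := by simp [Ua, hab]
  have Uab : U T τ a b = β := by simp [Ua, hab.symm]
  have orth : ∀ v, α * star (U T τ a v) + β * star (U T τ b v) = if v = a then 1 else 0 :=
    fun v => by
      have := congrFun (congrFun hu v) a
      rw [mul_apply, one_apply] at this
      rw [← this, ← ra fun w => star (U T τ w v)]
      exact sum_congr rfl fun w _ => by rw [conjTranspose_apply, hs a w, mul_comm]
  set δ := U T τ b b with hδ
  have rb : ∀ f : Fin n → ℂ, ∑ w, f w * U T τ w b = β * f a + δ * f b := fun f => by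
    rw [sum_eq_add_of_mem a b (mem_univ _) (mem_univ _) hab, Uab, mul_comm, mul_comm (f b)]
    intro v _ hv
    have := orth v
    simp only [Ua v, hv.1, hv.2, if_false, mul_zero, add_zero, star_zero, zero_add] at this
    rw [hs, star_eq_zero.1 ((mul_eq_zero.1 this).resolve_left hβ), mul_zero]
  have com : ∀ k : ℕ, β * ((T.adjMatrix ℂ ^ k) a a - (T.adjMatrix ℂ ^ k) b b) =
      (α - δ) * (T.adjMatrix ℂ ^ k) a b := fun k => by
    have c : Commute (U T τ) (T.adjMatrix ℂ ^ k) :=
      (((Commute.refl (T.adjMatrix ℂ)).smul_left _).pow_right k).exp_left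
    have := congrFun (congrFun c.eq a) b
    rw [mul_apply, mul_apply, ra, rb] at this
    linear_combination -this
  have one : (T.adjMatrix ℂ ^ T.dist a b) a b = 1 := by
    rw [SimpleGraph.adjMatrix_pow_apply_eq_card_walk, Nat.cast_eq_one, Fintype.card_eq_one_iff]
    obtain ⟨p, hp⟩ := hT.connected.exists_walk_length_eq_dist a b
    refine ⟨⟨p, hp⟩, fun ⟨q, hq⟩ => Subtype.ext ?_⟩
    exact (hT.existsUnique_path a b).unique (q.isPath_of_length_eq_dist hq)
      (p.isPath_of_length_eq_dist hp)
  obtain ⟨col⟩ := hT.colorable_two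
  set σ : Fin n → ℂ := fun v => if col v = 0 then 1 else -1 with hσ
  have s2 : ∀ v, σ v * σ v = 1 := fun v => by simp only [hσ]; split_ifs <;> simp
  have sadj : ∀ u v, T.Adj u v → σ u * σ v = -1 := fun u v e => by
    have := col.valid e
    simp only [hσ]
    generalize col u = x at *
    generalize col v = y at *
    fin_cases x <;> fin_cases y <;> simp at this ⊢
  let S : (Matrix (Fin n) (Fin n) ℂ)ˣ := ⟨diagonal σ, diagonal σ, by simp [s2], by simp [s2]⟩
  have cA : ∀ c : ℂ, S.val * (c • T.adjMatrix ℂ) * (S⁻¹).val =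
      -(c • T.adjMatrix ℂ) := fun c => by
    ext u v
    show (diagonal σ * (c • T.adjMatrix ℂ) * diagonal σ) u v = _
    by_cases e : T.Adj u v
    · simp only [mul_diagonal, diagonal_mul, Matrix.smul_apply, Matrix.neg_apply,
        SimpleGraph.adjMatrix_apply, e, if_true, smul_eq_mul]
      linear_combination c * sadj u v e
    · rw [mul_diagonal, diagonal_mul]
      simp [e]
  have dg : ∀ (N : Matrix (Fin n) (Fin n) ℂ) u v, (S.val * N * (S⁻¹).val) u v =
      σ u * N u v * σ v := fun N u v => by
    show (diagonal σ * N * diagonal σ) u v = _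
    rw [mul_diagonal, diagonal_mul]
  have sp : ∀ (k : ℕ) u v, σ u * (T.adjMatrix ℂ ^ k) u v * σ v =
      (-1) ^ k * (T.adjMatrix ℂ ^ k) u v := fun k u v => by
    have := Units.conj_pow S (T.adjMatrix ℂ) k
    rw [← one_smul ℂ (T.adjMatrix ℂ), cA, one_smul, ← neg_one_smul ℂ, smul_pow] at this
    have := congrFun (congrFun this u) v
    rw [Matrix.smul_apply, smul_eq_mul] at this
    rw [this, dg]
  have sU : ∀ u v, σ u * U T τ u v * σ v = star (U T τ v u) := fun u v => by
    have := exp_units_conj S M
    rw [hM, cA, ← hM, ← hU] at this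
    have := congrFun (congrFun this u) v
    rw [conjTranspose_apply] at this
    rw [this, dg]
    rfl
  have ar : star α = α := by rw [← Uaa, ← sU, mul_right_comm, s2, one_mul]
  have o1 := orth a
  have o2 := orth b
  rw [hs b a, Uaa, Uab, if_pos rfl, ar] at o1
  have dr : star δ = δ := by rw [hδ, ← sU, mul_right_comm, s2, one_mul]
  rw [Uab, ← hδ, if_neg hab.symm, dr] at o2
  have cd := com (T.dist a b)
  rw [one, mul_one] at cd
  have pd := sp (T.dist a b) a b
  rw [one, mul_one, mul_one] at pd
  have fin : α = δ := by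
    rcases neg_one_pow_eq_or ℂ (T.dist a b) with e | e
    · exfalso
      have br : star β = β := by
        rw [← Uab, ← sU, hs b a, mul_right_comm, mul_comm (σ b), pd, e, one_mul]
      rw [br] at o1 o2
      have hd : δ = -α := mul_left_cancel₀ hβ (by linear_combination o2)
      have hA : (T.adjMatrix ℝ).IsHermitian := by
        rw [IsHermitian, conjTranspose_eq_transpose_of_trivial]
        exact T.isSymm_adjMatrix
      obtain ⟨x, rfl⟩ := Complex.conj_eq_iff_real.1 ar
      obtain ⟨y, rfl⟩ := Complex.conj_eq_iff_real.1 br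
      have ev : ∀ i, (x * hA.eigenvectorBasis i a + y * hA.eigenvectorBasis i b =
          Real.cos (τ * hA.eigenvalues i) * hA.eigenvectorBasis i a) ∧
          Real.sin (τ * hA.eigenvalues i) * hA.eigenvectorBasis i a = 0 := fun i => by
        have e1 := exp_eig M (fun u => (hA.eigenvectorBasis i u : ℂ))
          ((τ * hA.eigenvalues i : ℝ) * Complex.I) (by
            funext v
            have := congrArg Complex.ofReal (congrFun (hA.mulVec_eigenvectorBasis i) v)
            rw [hM, smul_mulVec]
            simp only [SimpleGraph.adjMatrix_mulVec_apply, Pi.smul_apply, smul_eq_mul] at this ⊢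
            push_cast at this ⊢
            rw [this]
            ring)
        have e2 := (ra _).symm.trans (congrFun e1 a)
        have e3 := congrArg Complex.re e2
        have e4 := congrArg Complex.im e2
        simp only [Pi.smul_apply, smul_eq_mul, Complex.add_re, Complex.mul_re, Complex.ofReal_re,
          Complex.ofReal_im, mul_zero, sub_zero, Complex.exp_ofReal_mul_I_re, Complex.add_im,
          Complex.mul_im, zero_mul, add_zero, Complex.exp_ofReal_mul_I_im, zero_add] at e3 e4
        exact ⟨e3, e4.symm⟩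
      have hk : ∀ i, hA.eigenvectorBasis i a ≠ 0 → ∃ k : ℤ, k * Real.pi = τ * hA.eigenvalues i :=
        fun i hi => Real.sin_eq_zero_iff.1 ((mul_eq_zero.1 (ev i).2).resolve_right hi)
      have cs : ∀ l : ℝ, Real.cos (τ * √(l ^ 2)) = Real.cos (τ * l) := fun l => by
        rw [Real.sqrt_sq_eq_abs, ← Real.cos_abs (τ * l), abs_mul, abs_of_pos hτ]
      have R := rat_of _ hA (fun j w => Fintype.card {p : T.Walk w a | p.length = 2 * j}) a
        (fun j w => by rw [← pow_mul, SimpleGraph.adjMatrix_pow_apply_eq_card_walk])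
        (Real.pi / τ) (fun s => Real.cos (τ * √s))
        (fun w => (if w = a then x else 0) + if w = b then y else 0)
        (fun i hi => (hk i hi).imp fun k e => by field_simp; linarith)
        (fun i hi => by
          obtain ⟨k, e⟩ := hk i hi
          exact ⟨(-1) ^ k, by rw [cs, ← e, Real.cos_int_mul_pi]; simp⟩)
        (fun i => by
          simp only [cs, ← (ev i).1, mul_add, sum_add_distrib, mul_ite, mul_zero, sum_ite_eq',
            mem_univ, if_true]
          ring)
      obtain ⟨p, hp⟩ := R a
      obtain ⟨q, hq⟩ := R b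
      simp only [if_true, hab, hab.symm, if_false, add_zero, zero_add] at hp hq
      subst hp hq
      simp only [SimpleGraph.adjMatrix_pow_apply_eq_card_walk, hd] at cd
      generalize Fintype.card {p : T.Walk a a | p.length = T.dist a b} = m1 at cd
      generalize Fintype.card {p : T.Walk b b | p.length = T.dist a b} = m2 at cd
      have f1 : q * (m1 - m2) = p - -p := by exact_mod_cast cd
      have f2 : p * p + q * q = 1 := by exact_mod_cast o1
      have q0 : q ≠ 0 := by exact_mod_cast hβ
      have g0 := sq4 (m1 - m2) (Rat.isSquare_intCast_iff.1 ⟨2 / q, by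
        push_cast
        field_simp
        linear_combination (q * (m1 - m2) + 2 * p) * f1 + 4 * f2⟩)
      have g1 : (m1 - m2 : ℚ) = 0 := by exact_mod_cast g0
      rw [g1] at f1
      have : p = 0 := by linarith
      exact hα (by simp [this])
    · have z : ∀ v, (T.adjMatrix ℂ ^ T.dist a b) v v = 0 := fun v => by
        have := sp (T.dist a b) v v
        rw [mul_right_comm, s2, e] at this
        linear_combination this / 2
      rw [z, z] at cd
      linear_combination -cd
  have := com k
  rw [fin, sub_self, zero_mul, mul_eq_zero, sub_eq_zero] at this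
  have := this.resolve_left hβ
  simp only [SimpleGraph.adjMatrix_pow_apply_eq_card_walk] at this ⊢
  exact_mod_cast this

theorem result {n : ℕ} (T : SimpleGraph (Fin n)) (hT : T.IsTree) (a b : Fin n) (hab : a ≠ b)
    (τ : ℝ) (hτ : 0 < τ) (α β : ℂ) (hα : α ≠ 0) (hβ : β ≠ 0)
    (h : U T τ *ᵥ Pi.single a 1 = α • Pi.single a 1 + β • Pi.single b 1) :
    delPoly T a = delPoly T b := by
  have e : ∀ c, delPoly T c = ((@SimpleGraph.adjMatrix ℝ _ T (fun _ _ => Classical.propDecidable _)
      _ _).submatrix (Subtype.val : {v // v ≠ c} → Fin n) Subtype.val).charpoly := fun c => by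
    unfold delPoly
    congr
  rw [e, e]
  exact cospec _ a b (walks T hT a b hab τ hτ α β hα hβ h)

end Pool.Agent.Results.MP_33c96f_co.Tree
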